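import Mathlib
import Pool.Agent.Helper77.SND.Stmts

set_option autoImplicit false

/-!
# The forcing theorem from its single step
-/

namespace Pool.Agent.Helper77.SND

/-- `C` with an isolated edge -/
def force_C {V : Type} (C : SimpleGraph V) : SimpleGraph (V ⊕ Bool) where
  Adj u w := match u, w with
    | Sum.inl a, Sum.inl b => C.Adj a b
    | Sum.inl _, Sum.inr _ => False
    | Sum.inr _, Sum.inl _ => False
    | Sum.inr a, Sum.inr b => a ≠ b
  symm := ⟨fun u w h => by
    cases u <;> cases w
    · exact SimpleGraph.Adj.symm (G := C) h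
    · exact h
    · exact h
    · exact Ne.symm h⟩
  loopless := ⟨fun u h => by
    cases u
    · exact C.loopless.irrefl _ h
    · exact h rfl⟩

open Classical in
/-- the colouring of `force_C` -/
noncomputable def force_k {V : Type} (κ : Sym2 V → Bool) : Sym2 (V ⊕ Bool) → Bool :=
  fun e => if ∃ e0 : Sym2 V, e = Sym2.map Sum.inl e0 ∧ κ e0 = false then false else true

lemma force_k_inl {V : Type} (κ : Sym2 V → Bool) (x y : V) :
    force_k κ s(Sum.inl x, Sum.inl y) = κ s(x, y) := by
  unfold force_k
  have e1 : (s(Sum.inl x, Sum.inl y) : Sym2 (V ⊕ Bool)) = Sym2.map Sum.inl s(x, y) := rfl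
  split_ifs with h
  · obtain ⟨e0, h0, h1⟩ := h
    rw [e1] at h0
    have h2 := Sym2.map.injective Sum.inl_injective h0
    rw [h2, h1]
  · by_contra hcon
    apply h
    refine ⟨s(x, y), e1, ?_⟩
    cases h3 : κ s(x, y)
    · rfl
    · rw [h3] at hcon
      exact absurd rfl hcon

lemma force_k_inr {V : Type} (κ : Sym2 V → Bool) :
    force_k κ s(Sum.inr false, Sum.inr true) = true := by
  unfold force_k
  rw [if_neg]
  rintro ⟨e0, h0, _⟩
  induction e0 using Sym2.ind with
  | _ x y =>
    rw [Sym2.map_mk] at h0
    rcases Sym2.eq_iff.1 h0 with ⟨h1, _⟩ | ⟨h1, _⟩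
    · exact Sum.inr_ne_inl h1
    · exact Sum.inr_ne_inl h1

lemma force_good {m : ℕ} (H : SimpleGraph (Fin m)) (hC3 : C3 H) {V : Type} (C : SimpleGraph V)
    (κ : Sym2 V → Bool) (hgood : Good H C κ) : Good H (force_C C) (force_k κ) := by
  intro b f hf
  obtain ⟨hm, hsep⟩ := hC3
  have hall : (∀ x, ∃ v, f x = Sum.inl v) ∨ (∀ x, ∃ v, f x = Sum.inr v) := by
    by_contra hcon
    push Not at hcon
    obtain ⟨⟨x, hx⟩, ⟨y, hy⟩⟩ := hcon
    obtain ⟨x', y', hx', hy', hadj⟩ := hsep
      (fun z => Sum.elim (fun _ => some true) (fun _ => some false) (f z))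
      ⟨0, by omega⟩ ⟨0, by omega⟩
      (by
        intro z hz
        cases h : f z <;> simp [h] at hz)
      ⟨y, by
        cases h : f y with
        | inl v => simp
        | inr v => exact absurd h (hy v)⟩
      ⟨x, by
        cases h : f x with
        | inl v => exact absurd h (hx v)
        | inr v => simp⟩
    have h1 := hf.2 x' y' hadj
    cases h : f x' with
    | inl v =>
      cases h' : f y' with
      | inl v' =>
        simp [h'] at hy'
      | inr v' =>
        rw [h, h'] at h1
        exact h1
    | inr v =>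
      simp [h] at hx'
  rcases hall with hall | hall
  · choose g hg using hall
    have hg' : Copy H C g := by
      refine ⟨?_, ?_⟩
      · intro x y hxy
        apply hf.1
        rw [hg, hg, hxy]
      · intro x y hxy
        have := hf.2 x y hxy
        rw [hg, hg] at this
        exact this
    obtain ⟨x, y, hxy, hne⟩ := hgood b g hg'
    refine ⟨x, y, hxy, ?_⟩
    rw [hg, hg, force_k_inl]
    exact hne
  · exfalso
    choose g hg using hall
    have hinj : Function.Injective g := by
      intro x y hxy
      apply hf.1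
      rw [hg, hg, hxy]
    have hc := Fintype.card_le_of_injective g hinj
    simp at hc
    omega

lemma force_list (h1 : ST_FORCE1) {m : ℕ} (H : SimpleGraph (Fin m)) (hC3 : C3 H)
    (hS : ∀ (N : ℕ) (s : Bool), Snd H N s) {V : Type} [Finite V] (C : SimpleGraph V)
    (κ : Sym2 V → Bool) (hgood : Good H C κ) (l : List (V × V)) :
    (∀ p ∈ l, C.Adj p.1 p.2) →
    ∃ (V' : Type) (_ : Finite V') (G' : SimpleGraph V') (i : V ⊕ Bool → V'),
      Function.Injective i ∧
      (∀ x y, G'.Adj (i x) (i y) ↔ (force_C C).Adj x y) ∧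
      (∃ e : Sym2 V' → Bool, Good H G' e ∧
        ∀ x y, (force_C C).Adj x y → e s(i x, i y) = force_k κ s(x, y)) ∧
      (∀ e : Sym2 V' → Bool, Good H G' e → ∀ p ∈ l,
        ((e s(i (Sum.inl p.1), i (Sum.inl p.2)) = e s(i (Sum.inr false), i (Sum.inr true))) ↔
          κ s(p.1, p.2) = true)) := by
  induction l with
  | nil =>
    intro _
    refine ⟨V ⊕ Bool, inferInstance, force_C C, id, Function.injective_id, fun x y => Iff.rfl,
      ⟨force_k κ, force_good H hC3 C κ hgood, fun x y _ => rfl⟩, ?_⟩
    intro e _ p hp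
    exact absurd hp (List.not_mem_nil)
  | cons p l ih =>
    intro hl
    obtain ⟨V', hV', G', i, hi, hadj, ⟨e0, he0, hek⟩, hforce⟩ :=
      ih (fun q hq => hl q (List.mem_cons_of_mem _ hq))
    have hp := hl p List.mem_cons_self
    have hne : ∀ (x : V) (b : Bool), i (Sum.inl x) ≠ i (Sum.inr b) := by
      intro x b hcon
      exact Sum.inl_ne_inr (hi hcon)
    obtain ⟨V'', hV'', G'', j, hj, hadj', hext, hfor⟩ := h1 m H hC3 hS V' G' (i (Sum.inl p.1))
      (i (Sum.inl p.2)) (i (Sum.inr false)) (i (Sum.inr true)) (κ s(p.1, p.2))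
      ((hadj _ _).2 hp) ((hadj _ _).2 (by
        show false ≠ true
        decide)) (hne _ _) (hne _ _) (hne _ _) (hne _ _)
    refine ⟨V'', hV'', G'', j ∘ i, hj.comp hi, ?_, ?_, ?_⟩
    · intro x y
      exact (hadj' _ _).trans (hadj x y)
    · have hsign : (e0 s(i (Sum.inl p.1), i (Sum.inl p.2)) =
          e0 s(i (Sum.inr false), i (Sum.inr true))) ↔ κ s(p.1, p.2) = true := by
        rw [hek (Sum.inl p.1) (Sum.inl p.2) hp, hek (Sum.inr false) (Sum.inr true) (by
          show false ≠ true
          decide), force_k_inl, force_k_inr]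
      obtain ⟨e, he, hee⟩ := hext e0 he0 hsign
      refine ⟨e, he, ?_⟩
      intro x y hxy
      rw [← hek x y hxy]
      exact hee (i x) (i y) ((hadj x y).2 hxy)
    · intro e he q hq
      obtain ⟨hpb, hpq⟩ := hfor e he
      rcases List.mem_cons.1 hq with h2 | h2
      · rw [h2]
        exact hpq
      · have h3 := hforce (pb e j) hpb q h2
        exact h3

theorem st_FORCE (h1 : ST_FORCE1) : ST_FORCE := by
  classical
  intro m H hC3 hS V _ C κ hgood
  have := Fintype.ofFinite V
  obtain ⟨V', hV', G', i, hi, hadj, ⟨e0, he0, hek⟩, hforce⟩ :=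
    force_list h1 H hC3 hS C κ hgood
      ((Finset.univ : Finset (V × V)).filter (fun p => C.Adj p.1 p.2)).toList (by
        intro p hp
        rw [Finset.mem_toList, Finset.mem_filter] at hp
        exact hp.2)
  refine ⟨V', hV', G', fun x => i (Sum.inl x), ?_, ?_, ?_, ?_⟩
  · intro x y hxy
    exact Sum.inl_injective (hi hxy)
  · intro x y
    exact hadj _ _
  · refine ⟨e0, he0, ?_⟩
    intro x y hxy
    rw [hek (Sum.inl x) (Sum.inl y) hxy, force_k_inl]
  · intro e he
    have h2 : ∀ x y, C.Adj x y → ((e s(i (Sum.inl x), i (Sum.inl y)) =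
        e s(i (Sum.inr false), i (Sum.inr true))) ↔ κ s(x, y) = true) := by
      intro x y hxy
      have := hforce e he (x, y) (by
        rw [Finset.mem_toList, Finset.mem_filter]
        exact ⟨Finset.mem_univ _, hxy⟩)
      exact this
    cases h3 : e s(i (Sum.inr false), i (Sum.inr true)) with
    | true =>
      left
      intro x y hxy
      have h4 := h2 x y hxy
      rw [h3] at h4
      show e s(i (Sum.inl x), i (Sum.inl y)) = κ s(x, y)
      cases h5 : κ s(x, y) with
      | true => exact h4.2 h5
      | false =>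
        rw [h5] at h4
        cases h6 : e s(i (Sum.inl x), i (Sum.inl y)) with
        | true => exact absurd (h4.1 h6) (by decide)
        | false => rfl
    | false =>
      right
      intro x y hxy
      have h4 := h2 x y hxy
      rw [h3] at h4
      show e s(i (Sum.inl x), i (Sum.inl y)) = !κ s(x, y)
      cases h5 : κ s(x, y) with
      | true => exact h4.2 h5
      | false =>
        rw [h5] at h4
        cases h6 : e s(i (Sum.inl x), i (Sum.inl y)) with
        | true => rfl
        | false => exact absurd (h4.1 h6) (by decide)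

end Pool.Agent.Helper77.SND
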